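import Mathlib

/-!
# PDN: planar degree sequences encode PARTITION. Definitions

A graph is planar if it has a rotation system of genus zero: a permutation `ρ` of the darts which,
at every vertex, permutes the darts leaving it in one cycle, such that the number of faces (cycles
of `d ↦ ρ d.symm`) is the one given by Euler's formula `V - E + F = 2` for every component
(an isolated vertex has one face).
-/

set_option autoImplicit false

namespace Pool.Agent.PDN

/-- the dart `(u, v)` goes to the next dart of the face: the dart after `(v, u)` around `v` -/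
def facePerm {V : Type} {G : SimpleGraph V} (ρ : Equiv.Perm G.Dart) : Equiv.Perm G.Dart :=
  (Function.Involutive.toPerm _ (SimpleGraph.Dart.symm_involutive (G := G))).trans ρ

/-- the faces of a rotation system -/
def Faces {V : Type} {G : SimpleGraph V} (ρ : Equiv.Perm G.Dart) : Type :=
  Quotient (Equiv.Perm.SameCycle.setoid (facePerm ρ))

/-- planarity of a finite simple graph: a rotation system of genus zero -/
def Planar {V : Type} (G : SimpleGraph V) : Prop :=
  ∃ ρ : Equiv.Perm G.Dart, (∀ d, (ρ d).fst = d.fst) ∧
    (∀ d e : G.Dart, d.fst = e.fst → ρ.SameCycle d e) ∧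
    Nat.card V + Nat.card (Faces ρ) + Nat.card {v : V // ∀ w, ¬ G.Adj v w} =
      Nat.card G.edgeSet + 2 * Nat.card G.ConnectedComponent

/-- the finite multiset `s` is the family of the degrees of a planar graph -/
def Realizable (s : Multiset ℕ) : Prop :=
  ∃ (V : Type) (_ : Fintype V) (G : SimpleGraph V), Planar G ∧
    Finset.univ.val.map (fun v : V => Nat.card (G.neighborSet v)) = s

/-! ### The sequence -/

/-- `K = 1 + ∑ a` -/
def Kc {n : ℕ} (a : Fin n → ℕ) : ℕ := ∑ i, a i + 1

/-- the scale -/
def Mc (n : ℕ) : ℕ := 12 * (n + 1) ^ 2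

/-- the `2 n + 2` large entries: `M (K + a i)`, `n` times `M K`, twice `M (2 n + 1) K` -/
def big {n : ℕ} (a : Fin n → ℕ) : Multiset ℕ :=
  Finset.univ.val.map (fun i => Mc n * (Kc a + a i)) + Multiset.replicate n (Mc n * Kc a) +
    Multiset.replicate 2 (Mc n * ((2 * n + 1) * Kc a))

/-- the sequence: the large entries and `N` entries `4`, where `N` is half the sum of the large
entries minus `6 n` -/
def seq {n : ℕ} (a : Fin n → ℕ) : Multiset ℕ :=
  big a + Multiset.replicate ((big a).sum / 2 - 6 * n) 4

/-! ### Triangulations -/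

/-- A family of oriented triangles `f u v w` such that every ordered pair `(u, v)` is in at most
one of them, together with `(v, u)`, and such that the link of every vertex is one cycle:
`f u v w` means that `w` is the neighbour of `u` after `v`. -/
structure Tri (V : Type) where
  f : V → V → V → Prop
  cyc : ∀ {u v w}, f u v w → f v w u
  uniq : ∀ {u v w w'}, f u v w → f u v w' → w = w'
  opp : ∀ {u v w}, f u v w → ∃ w', f v u w'
  ne : ∀ {u v w}, f u v w → u ≠ v
  link : ∀ {u v w}, (∃ z, f u v z) → (∃ z, f u w z) → Relation.ReflTransGen (f u) v w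

namespace Tri

variable {V : Type} (T : Tri V)

/-- adjacency -/
def Adj (u v : V) : Prop := ∃ w, T.f u v w

theorem adj_symm {u v : V} (h : T.Adj u v) : T.Adj v u := by
  obtain ⟨w, hw⟩ := h
  exact T.opp hw

theorem adj_ne {u v : V} (h : T.Adj u v) : u ≠ v := by
  obtain ⟨w, hw⟩ := h
  exact T.ne hw

/-- the graph of the triangulation -/
def graph : SimpleGraph V where
  Adj := T.Adj
  symm := ⟨fun _ _ h => T.adj_symm h⟩
  loopless := ⟨fun _ h => T.adj_ne h rfl⟩

/-- the degree -/
noncomputable def deg (u : V) : ℕ := Nat.card {v : V // T.Adj u v}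

/-- the number of darts is `6 |V| - 12` -/
def Tight : Prop := Nat.card {p : V × V // T.Adj p.1 p.2} + 12 = 6 * Nat.card V

/-- the sign condition -/
def Sgn (s : V → ℤ) : Prop :=
  (∀ v, s v = 1 ∨ s v = -1) ∧ ∀ u v a b, T.f u v a → T.f v u b → s a = - s b

end Tri

end Pool.Agent.PDN
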