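import Mathlib
import Pool.Agent.PDN.Defs

/-!
# PDN: statements of the modules

Convention: `T.f u v w` = `(u, v, w)` is an oriented face = `w` comes after `v` around `u`.
All rows are independent: a row may use the statements of the rows named in its docstring as
hypotheses.
-/

set_option autoImplicit false

namespace Pool.Agent.PDN

/-! ## Necessity: cohomology -/

/-- LIN (linear algebra, about 60 lines). `rank P >= |V| - 1` and `rank Q = rank Qᵀ >= |Φ| - 1`
because the kernels are contained in the constants; `range P <= ker Q`, so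
`|V| - 1 <= rank P <= dim ker Q = |I| - rank Q <= |I| - |Φ| + 1 = |V| - 1`: equality everywhere,
`range P = ker Q`. The second claim is the same for the transposed matrices
(`Matrix.rank_transpose`): `range Qᵀ <= ker Pᵀ` have the same dimension. If `V` or `Φ` is empty the
kernel bound `dim ker <= 1` still holds. -/
def LinStmt : Prop :=
  ∀ (F : Type) [Field F] (I V Φ : Type) [Fintype I] [Fintype V] [Fintype Φ] [DecidableEq I]
    [DecidableEq V] [DecidableEq Φ] (P : Matrix I V F) (Q : Matrix Φ I F), Q * P = 0 →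
    (∀ x : V → F, P.mulVec x = 0 → ∀ u v, x u = x v) →
    (∀ y : Φ → F, Q.transpose.mulVec y = 0 → ∀ u v, y u = y v) →
    Fintype.card V + Fintype.card Φ = Fintype.card I + 2 →
    (∀ g : I → F, Q.mulVec g = 0 → ∃ x, P.mulVec x = g) ∧
      (∀ c : I → F, P.transpose.mulVec c = 0 → ∃ y, Q.transpose.mulVec y = c)

/-- CNT (counting, about 100 lines). The darts are the pairs `(u, v)`, `T.Adj u v`. Reversal is
fixed point free: each edge has one dart with `u < v`. The rotation `(u, v) ↦ (v, w)` of the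
faces has order three without fixed points: each face has one dart whose first vertex is its
least vertex. (For the second claim: the darts are the disjoint union of the sets
`u = min`, `v = min`, `w = min` of `{u, v, w}`, `f u v w`, which are in bijection.) -/
def CntStmt : Prop :=
  ∀ (V : Type) [Fintype V] [LinearOrder V] (T : Tri V),
    2 * Nat.card {p : V × V // T.Adj p.1 p.2 ∧ p.1 < p.2} = Nat.card {p : V × V // T.Adj p.1 p.2} ∧
    3 * Nat.card {p : V × V // ∃ w, T.f p.1 p.2 w ∧ p.1 < p.2 ∧ p.1 < w} =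
      Nat.card {p : V × V // T.Adj p.1 p.2}

open Classical in
/-- EXA (exactness, uses LIN, CNT; about 200 lines). Choose a linear order of `V`
(`LinearOrder.lift'` along `Fintype.equivFin`). `I` = the pairs `u < v`, adjacent; `Φ` = the pairs
`(u, v)` with `f u v w`, `u < v`, `u < w`. `P (u, v) x = [x = v] - [x = u]`; `Q (u, v) i` =
coefficient of the edge `i` in the boundary `(u, v) + (v, w) + (w, u)`, where `(v, w)` counts `+1`
for the edge `(v, w)` if `v < w` and `-1` for the edge `(w, v)` otherwise. `ker P` is in the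
constants because the graph is connected; `ker Qᵀ`: a function of the faces with equal values on
the two sides of every edge is constant on the faces around each vertex (`T.link`), adjacent
vertices share a face, and the graph is connected. `Q P = 0`: the boundary of a boundary. The
numbers: CNT and `Tight`. (It may be easier to work with functions on darts: a face function is
`s : V → V → F` with `s u v = s v w` if `f u v w`.) First claim: closed cochains of the graph are
exact. Second claim: dually. -/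
def ExaStmt : Prop :=
  ∀ (F : Type) [Field F] (V : Type) [Fintype V] (T : Tri V), T.graph.Connected → T.Tight →
    (∀ g : V → V → F, (∀ u v, T.Adj u v → g v u = - g u v) →
      (∀ u v w, T.f u v w → g u v + g v w + g w u = 0) →
      ∃ x : V → F, ∀ u v, T.Adj u v → g u v = x v - x u) ∧
    (∀ c : V → V → F, (∀ u v, T.Adj u v → c v u = - c u v) →
      (∀ u, ∑ v, (if T.Adj u v then c u v else 0) = 0) →
      ∃ s : V → V → F, (∀ u v w, T.f u v w → s u v = s v w) ∧
        ∀ u v, T.Adj u v → c u v = s u v - s v u)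

/-- COL (uses EXA; about 100 lines). Degrees even: second claim of EXA over `ZMod 2` with `c = 1`
(`∑ = deg u = 0`): face function `s`, `s u v ≠ s v u`. Put `g u v = 1` if `s u v = 0` and
`g u v = -1` if `s u v = 1`, in `ZMod 3`: antisymmetric, and `g u v + g v w + g w u = 3 g = 0` on
faces. First claim of EXA over `ZMod 3`: `x v - x u = ± 1` on edges. -/
def ColStmt : Prop :=
  ∀ (V : Type) [Fintype V] (T : Tri V), T.graph.Connected → T.Tight → (∀ v, Even (T.deg v)) →
    ∃ x : V → ZMod 3, ∀ u v, T.Adj u v → x u ≠ x v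

/-- SGN (uses EXA, COL; about 200 lines). Degrees divisible by four. For each colour `i` put
`c u v = 1` if `x u ≠ i` and `x v ≠ i`, else `0`, in `ZMod 2`. Sum around `u`: zero if `x u = i`;
otherwise the neighbours of `u` have alternately the two other colours (face `(u, v, w)`: three
different colours, next face `(u, w, z)`: `x z = x v`), so there are `deg u / 2` neighbours of
colour `≠ i` (the next-neighbour map is a bijection between the neighbours of the two colours),
an even number. EXA gives the face function `s_i`; around a vertex of colour `i` it is constant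
(`c = 0` on its edges): `s a = (-1) ^ s_i (face at a)` with `i = x a`. If `f u v a`, `f v u b`
then `a`, `b` have the same colour `i`, and `c u v = 1`, so `s a = - s b`. -/
def SgnStmt : Prop :=
  ∀ (V : Type) [Fintype V] (T : Tri V), T.graph.Connected → T.Tight → (∀ v, 4 ∣ T.deg v) →
    ∃ s : V → ℤ, T.Sgn s

/-! ## Necessity: the bound -/

/-- LNK (about 100 lines). The link of a vertex of degree four: start with a neighbour `n₁`, go on
with the next neighbour; by `T.link` all neighbours are reached, the next-neighbour map is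
injective (from `cyc`, `uniq`, applied to the reversed faces), so after four steps one is back. -/
def LnkStmt : Prop :=
  ∀ (V : Type) [Fintype V] (T : Tri V) (t n₁ : V), T.deg t = 4 → T.Adj t n₁ →
    ∃ n₂ n₃ n₄, T.f t n₁ n₂ ∧ T.f t n₂ n₃ ∧ T.f t n₃ n₄ ∧ T.f t n₄ n₁ ∧
      n₁ ≠ n₂ ∧ n₁ ≠ n₃ ∧ n₁ ≠ n₄ ∧ n₂ ≠ n₃ ∧ n₂ ≠ n₄ ∧ n₃ ≠ n₄ ∧
      ∀ v, T.Adj t v ↔ v = n₁ ∨ v = n₂ ∨ v = n₃ ∨ v = n₄

/-- OCT (uses LNK; about 100 lines). If three neighbours `n₂, n₃, n₄` of `t` have degree four then
`deg n₁ = 4`. At `n₃`: `n₄ → t → n₂`, so by LNK at `n₃` there is `y` with `f n₃ n₂ y`,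
`f n₃ y n₄`. At `n₂`: `y → n₃ → t → n₁`, so `f n₂ n₁ y`. At `n₄`: `n₁ → t → n₃ → y`, so
`f n₄ y n₁`. At `n₁`: `n₂ → t → n₄ → y → n₂`, closed, so by `T.link` these are all neighbours. -/
def OctStmt : Prop :=
  ∀ (V : Type) [Fintype V] (T : Tri V) (t n₁ n₂ n₃ n₄ : V), T.deg t = 4 →
    T.f t n₁ n₂ → T.f t n₂ n₃ → T.f t n₃ n₄ → T.f t n₄ n₁ →
    T.deg n₂ = 4 → T.deg n₃ = 4 → T.deg n₄ = 4 → T.deg n₁ = 4

open Classical in
/-- BND (uses LNK, OCT; about 250 lines). Let `A` be the set of the vertices of degree `≠ 4`, `B`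
the others, `δ` the number of pairs `(u, v)`, `u, v ∈ A` adjacent, `δ <= k (k - 1)`.
`∑_{v ∈ A} s v deg v = ∑_{v ∈ A} s v deg_A v + ∑_{t ∈ B} ∑_{u ∈ N(t) ∩ A} s u` (double counting of
the pairs `v ∈ A`, `u ∈ B` adjacent). The first sum is at most `δ`. For `t ∈ B` (LNK) the
opposite neighbours `n₁, n₃` and `n₂, n₄` have opposite signs (`f n₂ t n₁`, `f t n₂ n₃`), so the
inner sum is at most the number of the opposite pairs with exactly one element in `A`, at most
two; if there is such a pair then, by OCT, at least two neighbours are in `A` and not opposite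
ones only, so two consecutive neighbours `n_i, n_(i+1)` of `t` are in `A`: `f n_i n_(i+1) t`; so
`t` is determined by the pair `(n_i, n_(i+1))`, and there are at most `δ` such `t`. Total
`<= δ + 2 δ`. (If exactly one neighbour is in `A`, OCT says that its degree is four. If exactly
two and they are opposite then no pair is mixed. If exactly three, two are consecutive.) -/
def BndStmt : Prop :=
  ∀ (V : Type) [Fintype V] (T : Tri V) (s : V → ℤ), T.Sgn s →
    |∑ v, (if T.deg v ≠ 4 then s v * (T.deg v : ℤ) else 0)| ≤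
      3 * (Nat.card {v // T.deg v ≠ 4} * (Nat.card {v // T.deg v ≠ 4} - 1) : ℕ)

/-- ARI (arithmetic, about 100 lines). The left side is `M * z`, `M = 12 (n + 1)² >` right side, so
`z = ∑ s₁ i (K + a i) + ∑ s₂ i K + (s₃ 0 + s₃ 1) (2 n + 1) K = 0`. The first two sums are at most
`2 n K + ∑ a < (2 n + 1) K` in absolute value, so `s₃ 0 + s₃ 1 = 0` (it is `0` or `± 2`). Then
`K (∑ s₁ + ∑ s₂) = - ∑ s₁ i a i` has absolute value at most `∑ a < K`: both sides are zero.
`S = {i | s₁ i = 1}`. -/
def AriStmt : Prop :=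
  ∀ (n : ℕ) (a : Fin n → ℕ) (s₁ s₂ : Fin n → ℤ) (s₃ : Fin 2 → ℤ),
    (∀ i, s₁ i = 1 ∨ s₁ i = -1) → (∀ i, s₂ i = 1 ∨ s₂ i = -1) → (∀ i, s₃ i = 1 ∨ s₃ i = -1) →
    |∑ i, s₁ i * ((Mc n * (Kc a + a i) : ℕ) : ℤ) + ∑ i, s₂ i * ((Mc n * Kc a : ℕ) : ℤ) +
      ∑ i, s₃ i * ((Mc n * ((2 * n + 1) * Kc a) : ℕ) : ℤ)| ≤
      3 * ((2 * n + 2) * (2 * n + 1) : ℕ) →
    ∃ S : Finset (Fin n), ∑ i ∈ S, a i = ∑ i ∈ Sᶜ, a i

/-- EUL (about 250 lines). `φ = facePerm ρ`, `φ (u, v) = ρ (v, u)`. Every cycle of `φ` has length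
at least three: `φ d ≠ d` (no loops), `φ (φ d) ≠ d`, otherwise `ρ` fixes a dart at a vertex whose
degree is at least two. So `3 F <= 2 E`, no isolated vertices, `V + F = E + 2 C` with `C >= 1` and
`2 E + 12 = 6 V`: so `F = 2 V - 4`, `C = 1` and every cycle has length exactly three, `φ³ = 1`.
Put `T.f u v w` iff there is a dart `d = (u, v)` with `(ρ d).snd = w`. `cyc`:
`φ (v, u) = ρ (u, v) = (u, w)`, `φ (u, w) = ρ (w, u) = (w, z)`, `φ (w, z) = ρ (z, w)`; `φ³ = 1`
gives `z = v` and `ρ (v, w) = (v, u)`. `link`: the cycle condition of `ρ` (finite: `SameCycle`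
gives a natural exponent). -/
def EulStmt : Prop :=
  ∀ (V : Type) [Fintype V] (G : SimpleGraph V), Planar G →
    (∀ v, 4 ≤ Nat.card (G.neighborSet v)) →
    ∑ v, Nat.card (G.neighborSet v) + 12 = 6 * Fintype.card V →
    ∃ T : Tri V, T.graph = G ∧ G.Connected ∧ T.Tight ∧
      ∀ v, T.deg v = Nat.card (G.neighborSet v)

/-- GNE (general necessity; uses SGN, BND, EUL; about 200 lines). A bijection of `V` with
`ι ⊕ Fin N` compatible with the degrees (equal fibres, `Equiv.ofFiberEquiv`). All degrees are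
divisible by four and at least four, the sum is `6 |V| - 12`; the vertices of degree `≠ 4` are the
ones in `ι`. -/
def GneStmt : Prop :=
  ∀ (ι : Type) [Fintype ι] (b : ι → ℕ) (N : ℕ), (∀ i, 4 ∣ b i) → (∀ i, 8 ≤ b i) →
    ∑ i, b i + 4 * N + 12 = 6 * (Fintype.card ι + N) →
    Realizable (Finset.univ.val.map b + Multiset.replicate N 4) →
    ∃ σ : ι → ℤ, (∀ i, σ i = 1 ∨ σ i = -1) ∧
      |∑ i, σ i * (b i : ℤ)| ≤ 3 * (Fintype.card ι * (Fintype.card ι - 1) : ℕ)

/-- NEC (uses GNE, ARI; about 100 lines): `ι = Fin n ⊕ Fin n ⊕ Fin 2`; `Mc n` is divisible by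
`12`, so all large entries are at least `12` and divisible by four. -/
def NecStmt : Prop :=
  ∀ (n : ℕ) (a : Fin n → ℕ), Realizable (seq a) →
    ∃ S : Finset (Fin n), ∑ i ∈ S, a i = ∑ i ∈ Sᶜ, a i

/-! ## Sufficiency -/

/-- TPL (about 200 lines). `ρ (u, v) = (u, w)` if `f u v w`; inverse: if `f u v w` then `(u, w)`
comes from `(u, v)`. `SameCycle` by `T.link`. `φ³ = 1` without fixed points: `3 F = 2 E`; `C = 1`;
no isolated vertices (connected, `|V| >= 2` by `Tight`); `2 E + 12 = 6 V`. -/
def TplStmt : Prop :=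
  ∀ (V : Type) [Fintype V] (T : Tri V), T.graph.Connected → T.Tight → Planar T.graph

/-- SUB (edge subdivision, about 350 lines). `T'` on `Option V`, `b = none`: the old faces without
`{u, v}` and the faces `(u, b, a)`, `(b, v, a)`, `(v, b, a')`, `(b, u, a')` and their rotations.
Link of `u`: `v` replaced by `b`; of `v`: `u` replaced by `b`; of `a`: `u → b → v` instead of
`u → v`; of `a'`: `v → b → u`; of `b`: `u → a' → v → a → u`. Suggested: `f' (some x) (some y)
(some z) := f x y z ∧ ¬ (both u and v in {x, y, z})`, `L x y := (f x y u ∧ (x = v ∨ y = v)) ∨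
(f x y v ∧ (x = u ∨ y = u))` (the link of `b`), `f' none (some x) (some y) := L x y` and its
rotations. -/
def SubStmt : Prop :=
  ∀ (V : Type) [Fintype V] (T : Tri V) (u v a a' : V), T.f u v a → T.f v u a' → a ≠ a' →
    ∃ T' : Tri (Option V),
      (∀ x y z, T.f x y z → ¬ ((u = x ∨ u = y ∨ u = z) ∧ (v = x ∨ v = y ∨ v = z)) →
        T'.f (some x) (some y) (some z)) ∧
      T'.f (some u) none (some a) ∧ T'.f none (some v) (some a) ∧
      T'.f (some v) none (some a') ∧ T'.f none (some u) (some a') ∧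
      (∀ x, x ≠ a → x ≠ a' → T'.deg (some x) = T.deg x) ∧
      T'.deg (some a) = T.deg a + 1 ∧ T'.deg (some a') = T.deg a' + 1 ∧ T'.deg none = 4 ∧
      (T.graph.Connected → T'.graph.Connected)

/-- STR (strip, uses SUB; about 200 lines). Replace the edge `u v` by a strip of `L + 1` vertices
of degree four. Induction on `L` with the additional invariant: there is `b` outside `range ι`
with `f b (ι a') (ι v)` and `f (ι a') b (ι u)`. `L = 0`: SUB at `(u, v)`. Step: SUB at the
edge `(b, ι a')` with opposite vertices `ι v`, `ι u`; the new vertex is the new `b`. -/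
def StrStmt : Prop :=
  ∀ (V : Type) [Fintype V] (T : Tri V) (u v a a' : V) (L : ℕ), T.f u v a → T.f v u a' → a ≠ a' →
    T.graph.Connected →
    ∃ (W : Type) (_ : Fintype W) (T' : Tri W) (ι : V ↪ W),
      (∀ x y z, T.f x y z → ¬ ((u = x ∨ u = y ∨ u = z) ∧ (v = x ∨ v = y ∨ v = z)) →
        T'.f (ι x) (ι y) (ι z)) ∧
      T'.deg (ι u) = T.deg u + L ∧ T'.deg (ι v) = T.deg v + L ∧
      T'.deg (ι a) = T.deg a + 1 ∧ T'.deg (ι a') = T.deg a' + 1 ∧
      (∀ x, x ≠ u → x ≠ v → x ≠ a → x ≠ a' → T'.deg (ι x) = T.deg x) ∧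
      (∀ w, w ∉ Set.range ι → T'.deg w = 4) ∧
      Nat.card W = Nat.card V + (L + 1) ∧ T'.graph.Connected

/-- BIP (bipyramid, about 250 lines). `V = Fin N ⊕ Fin 2` with `N >= 3`; the faces are
`(c i, c (i + 1), x)`, `(c (i + 1), c i, x')` and their rotations (indices mod `N`; `ZMod N` may be
more convenient inside). The degrees are `4` on the cycle and `N` at the apexes. -/
def BipStmt : Prop :=
  ∀ N : ℕ, 3 ≤ N → ∃ (V : Type) (_ : Fintype V) (T : Tri V) (p : ℕ → V) (x x' : V),
    (∀ i j, i < N → j < N → p i = p j → i = j) ∧ x ≠ x' ∧ (∀ i, p i ≠ x ∧ p i ≠ x') ∧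
    (∀ v, v = x ∨ v = x' ∨ ∃ i < N, v = p i) ∧
    (∀ i, T.f (p i) (p (i + 1)) x ∧ T.f (p (i + 1)) (p i) x') ∧
    (∀ i, T.deg (p i) = 4) ∧ T.deg x = N ∧ T.deg x' = N ∧ T.graph.Connected

/-- CHN (uses BIP, STR; about 250 lines). Start with BIP for `N = m + y` and replace, for
`j = 0, 1, .., m - 2`, the edge `p j, p (j + 1)` by a strip with `e j + 1` vertices (STR with
`L = e j`). Induction on the number `t` of the strips: labels `x, x', p 0, .., p (m - 1)`, pairwise
different; the faces `(p i, p (i + 1), x)`, `(p (i + 1), p i, x')` for `t <= i`, `i + 1 < m`;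
`deg x = deg x' = m + y + t`; `deg (p i) = 4 + (if 0 < i and i - 1 < t then e (i - 1)) +
(if i < t then e i)`; all other vertices have degree four; `|V| = m + y + 2 + ∑_{j < t} (e j + 1)`.
Here `m >= 1`. -/
def ChnStmt : Prop :=
  ∀ (m y : ℕ) (e : ℕ → ℕ), 1 ≤ m → 3 ≤ m + y →
    ∃ (V : Type) (_ : Fintype V) (T : Tri V), T.graph.Connected ∧
      Finset.univ.val.map T.deg =
        Multiset.replicate 2 (m + y + (m - 1)) +
        (Multiset.range m).map (fun j => 4 + (if 0 < j then e (j - 1) else 0) +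
          (if j + 1 < m then e j else 0)) +
        Multiset.replicate (y + ∑ j ∈ Finset.range (m - 1), (e j + 1)) 4

/-- SAR (arithmetic of the sufficiency, about 250 lines). Let `l_1 <= .. <= l_n` be the elements of
`{K + a i : i ∈ S} ∪ {K, .., K}` (`n - |S|` times `K`) and `r_1 >= .. >= r_n` those of
`{K + a i : i ∉ S} ∪ {K, .., K}` (`|S|` times); equal sums. `D_j = ∑_{i <= j} (r_i - l_i) >= 0`
(decreasing differences with total `0`) and `D_j <= ∑ a < K <= l_(j+1)`. Put
`e (2 j) = M (l_(j+1) - D_j) - 4` (`0 <= j < n`), `e (2 j - 1) = M D_j` (`1 <= j < n`). Then the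
`j`-th entry of the range is `M l_(i+1)` for `j = 2 i` and `M r_(i+1)` for `j = 2 i + 1`.
`y = M (2 n + 1) K - 4 n + 1`. The number of the fours agrees because both sides have
`sum = 6 · card - 12`, or by computing `∑ e`. -/
def SarStmt : Prop :=
  ∀ (n : ℕ) (a : Fin n → ℕ), 1 ≤ n → ∀ S : Finset (Fin n), ∑ i ∈ S, a i = ∑ i ∈ Sᶜ, a i →
    ∃ (y : ℕ) (e : ℕ → ℕ), 3 ≤ 2 * n + y ∧
      Multiset.replicate 2 (2 * n + y + (2 * n - 1)) +
        (Multiset.range (2 * n)).map (fun j => 4 + (if 0 < j then e (j - 1) else 0) +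
          (if j + 1 < 2 * n then e j else 0)) +
        Multiset.replicate (y + ∑ j ∈ Finset.range (2 * n - 1), (e j + 1)) 4 = seq a

/-- GSU (general sufficiency; uses TPL, CHN; about 80 lines). `Tight` from the multiset of the
degrees: the number of darts is the sum of the degrees. -/
def GsuStmt : Prop :=
  ∀ (m y : ℕ) (e : ℕ → ℕ), 1 ≤ m → 3 ≤ m + y →
    Realizable (Multiset.replicate 2 (m + y + (m - 1)) +
      (Multiset.range m).map (fun j => 4 + (if 0 < j then e (j - 1) else 0) +
        (if j + 1 < m then e j else 0)) +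
      Multiset.replicate (y + ∑ j ∈ Finset.range (m - 1), (e j + 1)) 4)

/-- SUF (uses GSU, SAR; 10 lines). -/
def SufStmt : Prop :=
  ∀ (n : ℕ) (a : Fin n → ℕ), 1 ≤ n → (∃ S : Finset (Fin n), ∑ i ∈ S, a i = ∑ i ∈ Sᶜ, a i) →
    Realizable (seq a)

end Pool.Agent.PDN
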